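import Mathlib
import Pool.Agent.H.MP_4abfef_an.E

namespace Pool.Agent.Results.MP_4abfef_an.Yes

open MeasureTheory Set Filter Topology Pool.Agent.H.MP_4abfef_an

/-- mixing of multiplicity k -/
def Mix {Z : Type} [MeasurableSpace Z] (ρ : Measure Z) (V : Z → Z) (k : ℕ) : Prop :=
  ∀ (A : Set Z) (B : Fin k → Set Z), MeasurableSet A → (∀ j, MeasurableSet (B j)) →
    Tendsto (fun m : Fin k → ℕ => ρ (A ∩ ⋂ j, V^[∑ i ∈ Finset.Iic j, m i] '' B j)) atTop
      (𝓝 (ρ A * ∏ j, ρ (B j)))

/-- measurable families of automorphisms of the fibre -/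
def Fam (X : Type) [MeasurableSpace X] {Y : Type} [MeasurableSpace Y] (ν : Measure Y) : Type :=
  {Φ : X → Y ≃ᵐ Y // (∀ x, MeasurePreserving (Φ x) ν ν) ∧ Measurable fun p : X × Y => Φ p.1 p.2}

/-- the skew product -/
def skew {X Y : Type} [MeasurableSpace X] [MeasurableSpace Y] {ν : Measure Y} (T : X → X)
    (Φ : Fam X ν) (p : X × Y) : X × Y := (T p.1, Φ.1 p.1 p.2)

/-- the weak topology on the extensions -/
@[reducible] noncomputable def halmos {X Y : Type} [MeasurableSpace X] [MeasurableSpace Y]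
    (μ : Measure X) (ν : Measure Y) (T : X → X) : TopologicalSpace (Fam X ν) :=
  ⨅ (A : Set (X × Y)) (B : Set (X × Y)) (_ : MeasurableSet A) (_ : MeasurableSet B),
    TopologicalSpace.induced (fun Φ => (μ.prod ν) (symmDiff (skew T Φ ⁻¹' A) B)) inferInstance

theorem result (X Y : Type) [MeasurableSpace X] [StandardBorelSpace X] [MeasurableSpace Y]
    [StandardBorelSpace Y] (μ : Measure X) [IsProbabilityMeasure μ] [NullSingletonClass μ]
    (ν : Measure Y) [IsProbabilityMeasure ν] [NullSingletonClass ν]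
    (T : X ≃ᵐ X) (hT : MeasurePreserving T μ μ) (k : ℕ) (hk : 1 ≤ k) (h : Mix μ T k) :
    ∀ᶠ Φ in @residual (Fam X ν) (halmos μ ν T), Mix (μ.prod ν) (skew T Φ) k := by
  let _ := halmos μ ν T
  have h' := (mix_img hT T.injective k).1 h
  have mix : Mx μ T := h'.mx hT (i := 0) (j := (⟨0, hk⟩ : Fin k).succ) (Fin.succ_ne_zero _).symm
    (g := fun d _ => d) (tendsto_atTop.2 fun b => (eventually_ge_atTop (Finset.univ.sup b)).mono
      fun d hd i => (Finset.le_sup (Finset.mem_univ i)).trans hd) fun d => by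
      have := ps_le (fun _ : Fin k => d) (⟨0, hk⟩ : Fin k).succ
      have e : ps (fun _ : Fin k => d) (⟨0, hk⟩ : Fin k).succ = d := by
        rw [ps_succ]; simp
      simp only [ps_zero]
      omega
  have hc : ∀ Φ : Fam X ν, JM ν Φ.1 := fun Φ => JM.of Φ.2.1 Φ.2.2
  have key := gen T hT mix (fun Φ : Fam X ν => Φ.1) hc (fun Φ j => ⟨⟨Φ, j.mp, j.m1⟩, rfl⟩)
    (fun Φ0 B hB => ?_) fun Φ0 U hU h0 => ?_
  · filter_upwards [key] with Φ hΦ
    refine (mix_img (sk_mp hT (hc Φ)) (sk_inj T.injective _) k).2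
      (lift hT (hc Φ) (hΦ (k + 1)) (fun N => (ps_sep N).mono fun m hm i j hij => ?_) h')
    have := hm i j hij
    have := ps_le m i
    have := ps_le m j
    omega
  · have c : Continuous fun Φ : Fam X ν => (μ.prod ν) (symmDiff (skew T Φ ⁻¹' (univ ×ˢ B))
        (skew T Φ0 ⁻¹' (univ ×ˢ B))) :=
      continuous_iff_le_induced.2 (iInf_le_of_le _ (iInf_le_of_le _ (iInf_le_of_le
        (MeasurableSet.univ.prod hB) (iInf_le_of_le ((sk_mp hT (hc Φ0)).measurable
          (MeasurableSet.univ.prod hB)) le_rfl))))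
    have := (ENNReal.tendsto_toReal (measure_ne_top _ _)).comp (c.tendsto Φ0)
    rw [symmDiff_self, bot_eq_empty, measure_empty, ENNReal.toReal_zero] at this
    exact this
  · by_contra! q
    choose Φ Z h1 h2 h3 using fun n : ℕ => q (1 / (n + 1)) (by positivity)
    have t : Tendsto Φ atTop (𝓝 Φ0) := by
      simp only [nhds_iInf, nhds_induced, tendsto_iInf, tendsto_comap_iff]
      intro A B hA hB
      rw [Function.comp_def, ← ENNReal.tendsto_toReal_iff (fun _ => measure_ne_top _ _)
        (measure_ne_top _ _), tendsto_iff_dist_tendsto_zero]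
      refine squeeze_zero (fun _ => dist_nonneg) (fun n => ?_)
        tendsto_one_div_add_atTop_nhds_zero_nat
      refine (abs_measureReal_sub_le_measureReal_symmDiff
        (((sk_mp hT (hc _)).measurable hA).symmDiff hB).nullMeasurableSet
        (((sk_mp hT (hc _)).measurable hA).symmDiff hB).nullMeasurableSet).trans
        ((measureReal_mono (s₂ := Z n ×ˢ univ) fun p hp => ⟨?_, trivial⟩).trans ?_)
      · by_contra z
        simp only [mem_symmDiff, mem_preimage, sk, h2 n _ z] at hp
        tauto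
      · rw [measureReal_prod_prod, probReal_univ, mul_one]; exact h1 n
    obtain ⟨n, hn⟩ := (t.eventually (hU.mem_nhds h0)).exists
    exact h3 n hn

end Pool.Agent.Results.MP_4abfef_an.Yes
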